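import Mathlib

set_option autoImplicit false

/-!
Walks all of whose short windows are good: abstract part.
-/

namespace Pool.Agent.Run7.h783.OneSeq

variable (P : Finset ℤ → Prop)

/-- all nonempty windows of length at most `k` of `l` are good -/
def Win (k : ℕ) (l : List ℤ) : Prop :=
  ∀ s : List ℤ, s <:+: l → s ≠ [] → s.length ≤ k → P s.toFinset

/-- all nonempty finite subsets of the infinite set `C` are good -/
def Clique (C : Set ℤ) : Prop :=
  C.Infinite ∧ ∀ W : Finset ℤ, W.Nonempty → (↑W : Set ℤ) ⊆ C → P W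

/-- a walk in `S` with good windows of length at most `k`, the first `k` terms in `C` and the last `k`
terms in `D`, which avoids `F` -/
structure Seg (k : ℕ) (S C D : Set ℤ) (F : Finset ℤ) (l : List ℤ) : Prop where
  nodup : l.Nodup
  len : k ≤ l.length
  sub : ∀ x ∈ l, x ∈ S
  av : ∀ x ∈ l, x ∉ F
  head : ∀ x ∈ l.take k, x ∈ C
  last : ∀ x ∈ l.drop (l.length - k), x ∈ D
  win : Win P k l

variable {P}

theorem Seg.mono {k k' : ℕ} {S S' C D : Set ℤ} {F F' : Finset ℤ} {l : List ℤ}
    (h : Seg P k' S C D F' l) (hk : k ≤ k') (hS : S ⊆ S') (hF : F ⊆ F') : Seg P k S' C D F l where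
  nodup := h.nodup
  len := hk.trans h.len
  sub := fun x hx => hS (h.sub x hx)
  av := fun x hx hxF => h.av x hx (hF hxF)
  head := fun x hx => h.head x (List.take_subset_take_left l hk hx)
  last := fun x hx => by
    refine h.last x ?_
    have h1 : l.length - k' ≤ l.length - k := by omega
    exact (List.drop_sublist_drop_left l h1).subset hx
  win := fun s hs hne hlen => h.win s hs hne (hlen.trans hk)

theorem Seg.reverse {k : ℕ} {S C D : Set ℤ} {F : Finset ℤ} {l : List ℤ}
    (h : Seg P k S C D F l) : Seg P k S D C F l.reverse where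
  nodup := List.nodup_reverse.2 h.nodup
  len := by rw [List.length_reverse]; exact h.len
  sub := fun x hx => h.sub x (List.mem_reverse.1 hx)
  av := fun x hx => h.av x (List.mem_reverse.1 hx)
  head := fun x hx => by
    rw [List.take_reverse] at hx
    exact h.last x (List.mem_reverse.1 hx)
  last := fun x hx => by
    rw [List.length_reverse, List.drop_reverse] at hx
    have h1 : l.length - (l.length - k) = k := by have := h.len; omega
    rw [h1] at hx
    exact h.head x (List.mem_reverse.1 hx)
  win := fun s hs hne hlen => by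
    have h1 := h.win s.reverse (by rw [← List.reverse_infix, List.reverse_reverse]; exact hs)
      (by simpa using hne) (by simpa using hlen)
    rwa [List.toFinset_reverse] at h1

theorem Seg.append {k : ℕ} {S C D E : Set ℤ} {F : Finset ℤ} {l₁ l₂ : List ℤ} (hD : Clique P D)
    (h₁ : Seg P k S C D F l₁) (h₂ : Seg P k S D E (F ∪ l₁.toFinset) l₂) :
    Seg P k S C E F (l₁ ++ l₂) where
  nodup := by
    rw [List.nodup_append]
    refine ⟨h₁.nodup, h₂.nodup, fun a ha b hb hab => ?_⟩
    subst hab
    exact h₂.av a hb (Finset.mem_union_right _ (List.mem_toFinset.2 ha))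
  len := by
    rw [List.length_append]
    exact h₁.len.trans (Nat.le_add_right _ _)
  sub := fun x hx => by
    rcases List.mem_append.1 hx with h | h
    · exact h₁.sub x h
    · exact h₂.sub x h
  av := fun x hx => by
    rcases List.mem_append.1 hx with h | h
    · exact h₁.av x h
    · exact fun hF => h₂.av x h (Finset.mem_union_left _ hF)
  head := fun x hx => by
    rw [List.take_append_of_le_length h₁.len] at hx
    exact h₁.head x hx
  last := fun x hx => by
    have h1 : (l₁ ++ l₂).length - k = l₁.length + (l₂.length - k) := by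
      rw [List.length_append]
      have := h₂.len
      omega
    rw [h1, List.drop_append, List.drop_eq_nil_of_le (by omega), List.nil_append] at hx
    have h2 : l₁.length + (l₂.length - k) - l₁.length = l₂.length - k := by omega
    rw [h2] at hx
    exact h₂.last x hx
  win := fun s hs hne hlen => by
    obtain ⟨a, b, hab⟩ := hs
    rw [List.append_assoc, List.append_eq_append_iff] at hab
    rcases hab with ⟨a', h1, h2⟩ | ⟨c', h1, h2⟩
    · -- `l₁ = a ++ a'`, `s ++ b = a' ++ l₂`
      rw [List.append_eq_append_iff] at h2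
      rcases h2 with ⟨a'', h3, h4⟩ | ⟨c'', h3, h4⟩
      · exact h₁.win s ⟨a, a'', by rw [h1, h3, List.append_assoc]⟩ hne hlen
      · -- `s = a' ++ c''`, `l₂ = c'' ++ b`
        refine hD.2 _ (by
          rw [Finset.nonempty_iff_ne_empty]
          exact fun h => hne (List.toFinset_eq_empty_iff s |>.1 h)) ?_
        intro x hx
        rw [Finset.mem_coe, List.mem_toFinset, h3] at hx
        have hl : a'.length + c''.length ≤ k := by
          rw [← List.length_append, ← h3]; exact hlen
        rcases List.mem_append.1 hx with hx | hx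
        · refine h₁.last x ?_
          have h5 : a' = l₁.drop a.length := by rw [h1]; simp
          rw [h5] at hx
          have h6 : l₁.length - k ≤ a.length := by
            rw [h1, List.length_append]; omega
          exact (List.drop_sublist_drop_left l₁ h6).subset hx
        · refine h₂.head x ?_
          have h5 : c'' = l₂.take c''.length := by rw [h4]; simp
          rw [h5] at hx
          exact List.take_subset_take_left l₂ (by omega) hx
    · exact h₂.win s ⟨c', b, by rw [h2, List.append_assoc]⟩ hne hlen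

/-- `C` and `D` are connected in `S` -/
def Conn (P : Finset ℤ → Prop) (S C D : Set ℤ) : Prop :=
  ∀ (k : ℕ) (F : Finset ℤ), ∃ l, Seg P k S C D F l

theorem Conn.symm {S C D : Set ℤ} (h : Conn P S C D) : Conn P S D C := fun k F => by
  obtain ⟨l, hl⟩ := h k F
  exact ⟨_, hl.reverse⟩

theorem Conn.trans {S C D E : Set ℤ} (hD : Clique P D) (h₁ : Conn P S C D) (h₂ : Conn P S D E) :
    Conn P S C E := fun k F => by
  obtain ⟨l₁, hl₁⟩ := h₁ k F
  obtain ⟨l₂, hl₂⟩ := h₂ k (F ∪ l₁.toFinset)
  exact ⟨_, hl₁.append hD hl₂⟩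

theorem Conn.mono {S S' C D : Set ℤ} (h : Conn P S C D) (hS : S ⊆ S') : Conn P S' C D := fun k F => by
  obtain ⟨l, hl⟩ := h k F
  exact ⟨l, hl.mono le_rfl hS subset_rfl⟩

theorem clique_seg {C S : Set ℤ} (hC : Clique P C) (hCS : C ⊆ S) (k : ℕ) (F : Finset ℤ) (y : ℤ)
    (hy : y ∈ C) (hyF : y ∉ F) : ∃ l, Seg P k S C C F l ∧ y ∈ l := by
  classical
  have hinf : (C \ ((insert y F : Finset ℤ) : Set ℤ)).Infinite := hC.1.sdiff (Finset.finite_toSet _)
  obtain ⟨t, ht, htc⟩ := hinf.exists_subset_card_eq k
  have h1 : ∀ x ∈ y :: t.toList, x ∈ C := by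
    intro x hx
    rcases List.mem_cons.1 hx with rfl | hx
    · exact hy
    · exact (ht (Finset.mem_toList.1 hx)).1
  refine ⟨y :: t.toList, ⟨?_, ?_, fun x hx => hCS (h1 x hx), ?_, fun x hx => h1 x (List.mem_of_mem_take hx),
    fun x hx => h1 x (List.mem_of_mem_drop hx), ?_⟩, by simp⟩
  · rw [List.nodup_cons]
    refine ⟨fun hyt => ?_, Finset.nodup_toList _⟩
    have := (ht (Finset.mem_toList.1 hyt)).2
    exact this (by simp)
  · simp [htc]
  · intro x hx hxF
    rcases List.mem_cons.1 hx with rfl | hx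
    · exact hyF hxF
    · exact (ht (Finset.mem_toList.1 hx)).2 (by simp [hxF])
  · intro s hs hne _
    refine hC.2 _ (by
      rw [Finset.nonempty_iff_ne_empty]
      exact fun h => hne (List.toFinset_eq_empty_iff s |>.1 h)) ?_
    intro x hx
    exact h1 x (hs.subset (List.mem_toFinset.1 hx))

theorem Conn.refl {S C : Set ℤ} (hC : Clique P C) (hCS : C ⊆ S) : Conn P S C C := fun k F => by
  obtain ⟨y, hy⟩ := (hC.1.sdiff F.finite_toSet).nonempty
  obtain ⟨l, hl, -⟩ := clique_seg hC hCS k F y hy.1 (fun h => hy.2 h)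
  exact ⟨l, hl⟩

/-- the translate of `B` by `z` -/
def tr (B : Set ℤ) (z : ℤ) : Set ℤ := {x | x - z ∈ B}

theorem tr_zero (B : Set ℤ) : tr B 0 = B := by
  ext x; simp [tr]

theorem tr_tr (B : Set ℤ) (z w : ℤ) : tr (tr B z) w = tr B (z + w) := by
  ext x
  simp only [tr, Set.mem_ofPred_eq]
  rw [show x - w - z = x - (z + w) by ring]

/-- invariance under translations -/
def TrInv (P : Finset ℤ → Prop) : Prop := ∀ (W : Finset ℤ) (z : ℤ), P W → P (W.image (· + z))

theorem Seg.translate {k : ℕ} {S C D : Set ℤ} {F : Finset ℤ} {l : List ℤ} (hP : TrInv P) (w : ℤ)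
    (h : Seg P k S C D (F.image (· - w)) l) :
    Seg P k (tr S w) (tr C w) (tr D w) F (l.map (· + w)) where
  nodup := h.nodup.map (add_left_injective w)
  len := by rw [List.length_map]; exact h.len
  sub := fun x hx => by
    obtain ⟨y, hy, rfl⟩ := List.mem_map.1 hx
    simpa [tr] using h.sub y hy
  av := fun x hx hxF => by
    obtain ⟨y, hy, rfl⟩ := List.mem_map.1 hx
    exact h.av y hy (Finset.mem_image.2 ⟨_, hxF, by ring⟩)
  head := fun x hx => by
    rw [← List.map_take] at hx
    obtain ⟨y, hy, rfl⟩ := List.mem_map.1 hx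
    simpa [tr] using h.head y hy
  last := fun x hx => by
    rw [List.length_map, ← List.map_drop] at hx
    obtain ⟨y, hy, rfl⟩ := List.mem_map.1 hx
    simpa [tr] using h.last y hy
  win := fun s hs hne hlen => by
    obtain ⟨t, ht, rfl⟩ := List.infix_map_iff.1 hs
    have h1 := hP _ w (h.win t ht (by simpa using hne) (by simpa using hlen))
    have h2 : (t.map (· + w)).toFinset = t.toFinset.image (· + w) := by
      ext x
      simp only [List.mem_toFinset, List.mem_map, Finset.mem_image]
    rwa [h2]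

theorem Conn.translate {S C D : Set ℤ} (hP : TrInv P) (h : Conn P S C D) (w : ℤ) :
    Conn P (tr S w) (tr C w) (tr D w) := fun k F => by
  obtain ⟨l, hl⟩ := h k (F.image (· - w))
  exact ⟨_, hl.translate hP w⟩

theorem Clique.translate {C : Set ℤ} (hP : TrInv P) (h : Clique P C) (w : ℤ) : Clique P (tr C w) := by
  constructor
  · have h1 : tr C w = (· + w) '' C := by
      ext x
      simp only [tr, Set.mem_ofPred_eq, Set.mem_image]
      constructor
      · intro hx
        exact ⟨_, hx, by ring⟩
      · rintro ⟨y, hy, rfl⟩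
        simpa using hy
    rw [h1]
    exact h.1.image (add_left_injective w).injOn
  · intro W hW hWC
    have h1 := hP _ w (h.2 (W.image (· - w)) (hW.image _) (by
      intro x hx
      obtain ⟨y, hy, rfl⟩ := Finset.mem_image.1 (Finset.mem_coe.1 hx)
      exact hWC hy))
    have h2 : (W.image (· - w)).image (· + w) = W := by
      rw [Finset.image_image]
      simp [Function.comp_def]
    rwa [h2] at h1

/-- the subgroup of the `z` such that `B` and `B + z` are connected in the subgroup `S` -/
def TT (hP : TrInv P) (S : AddSubgroup ℤ) (B : Set ℤ) (hB : Clique P B) (hBS : B ⊆ S) :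
    AddSubgroup ℤ where
  carrier := {z | z ∈ S ∧ Conn P S B (tr B z)}
  zero_mem' := ⟨S.zero_mem, by rw [tr_zero]; exact Conn.refl hB hBS⟩
  add_mem' := by
    rintro z w ⟨hz, hz'⟩ ⟨hw, hw'⟩
    refine ⟨S.add_mem hz hw, ?_⟩
    have h1 := hw'.translate hP z
    have h2 : tr (S : Set ℤ) z = S := by
      ext x
      simp only [tr, Set.mem_ofPred_eq, SetLike.mem_coe]
      exact ⟨fun h => by simpa using S.add_mem h hz, fun h => S.sub_mem h hz⟩
    rw [h2, tr_tr, add_comm w z] at h1
    exact Conn.trans (hB.translate hP z) hz' h1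
  neg_mem' := by
    rintro z ⟨hz, hz'⟩
    refine ⟨S.neg_mem hz, ?_⟩
    have h1 := hz'.translate hP (-z)
    have h2 : tr (S : Set ℤ) (-z) = S := by
      ext x
      simp only [tr, Set.mem_ofPred_eq, SetLike.mem_coe]
      exact ⟨fun h => by simpa using S.sub_mem h hz, fun h => by simpa using S.add_mem h hz⟩
    rw [h2, tr_tr, add_neg_cancel, tr_zero] at h1
    exact h1.symm

theorem mem_TT {hP : TrInv P} {S : AddSubgroup ℤ} {B : Set ℤ} {hB : Clique P B} {hBS : B ⊆ S} {z : ℤ} :
    z ∈ TT hP S B hB hBS ↔ z ∈ S ∧ Conn P S B (tr B z) := Iff.rfl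

/-- loops through a given element -/
theorem loop (hP : TrInv P) (S : AddSubgroup ℤ) (B : Set ℤ) (hB : Clique P B) (hBS : B ⊆ S)
    (hT : ∀ z ∈ S, Conn P S B (tr B z)) (k : ℕ) (F : Finset ℤ) (y : ℤ) (hy : y ∈ S) (hyF : y ∉ F) :
    ∃ l, Seg P k S B B F l ∧ y ∈ l := by
  classical
  obtain ⟨b, hb⟩ := hB.1.nonempty
  have hz : y - b ∈ S := S.sub_mem hy (hBS hb)
  obtain ⟨l₁, hl₁⟩ := hT _ hz k (insert y F)
  have hD := hB.translate hP (y - b)
  have hyD : y ∈ tr B (y - b) := by simpa [tr] using hb
  have hDS : tr B (y - b) ⊆ S := by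
    intro x hx
    have := S.add_mem (hBS hx) hz
    simpa using this
  have hl₁' := hl₁.mono le_rfl subset_rfl (Finset.subset_insert y F)
  have hyl₁ : y ∉ l₁ := fun h => hl₁.av y h (Finset.mem_insert_self _ _)
  obtain ⟨l₂, hl₂, hyl₂⟩ := clique_seg (S := S) hD hDS k (F ∪ l₁.toFinset) y hyD (by simp [hyF, hyl₁])
  have hl₁₂ := hl₁'.append hD hl₂
  obtain ⟨l₃, hl₃⟩ := (hT _ hz).symm k (F ∪ (l₁ ++ l₂).toFinset)
  exact ⟨_, hl₁₂.append hD hl₃, by simp [hyl₂]⟩

end Pool.Agent.Run7.h783.OneSeq
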