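import Mathlib
import Pool.Agent.Run7.h783.OneSeq.Walk

set_option autoImplicit false

/-!
Walks from finite sets all of whose convex subsets are good.
-/

namespace Pool.Agent.Run7.h783.OneSeq

variable {P : Finset ℤ → Prop}

/-- `W` is convex in `X` -/
def Convex (X W : Finset ℤ) : Prop :=
  W ⊆ X ∧ ∀ y ∈ X, (∃ u ∈ W, u ≤ y) → (∃ v ∈ W, y ≤ v) → y ∈ W

theorem convex_infix {X : Finset ℤ} {l s : List ℤ} (hl : l.Pairwise (· < ·)) (hX : Convex X l.toFinset)
    (hs : s <:+: l) : Convex X s.toFinset := by
  constructor
  · intro y hy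
    exact hX.1 (List.mem_toFinset.2 (hs.subset (List.mem_toFinset.1 hy)))
  · rintro y hy ⟨u, hu, huy⟩ ⟨v, hv, hyv⟩
    rw [List.mem_toFinset] at hu hv ⊢
    have h1 : y ∈ l := List.mem_toFinset.1 (hX.2 y hy ⟨u, List.mem_toFinset.2 (hs.subset hu), huy⟩
      ⟨v, List.mem_toFinset.2 (hs.subset hv), hyv⟩)
    obtain ⟨a, b, rfl⟩ := hs
    rw [List.pairwise_append, List.pairwise_append] at hl
    obtain ⟨⟨-, -, h2⟩, -, h3⟩ := hl
    rcases List.mem_append.1 h1 with h | h
    · rcases List.mem_append.1 h with h | h
      · exact absurd (h2 y h u hu) (not_lt.2 huy)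
      · exact h
    · exact absurd (h3 v (List.mem_append_right _ hv) y h) (not_lt.2 hyv)

theorem seg_of_sorted {X W U V : Finset ℤ}
    (hconv : ∀ s : Finset ℤ, s.Nonempty → Convex X s → P s)
    (hW : Convex X W) {k : ℕ} (hUW : U ⊆ W) (hU : k ≤ U.card) (hUl : ∀ y ∈ W, y ∉ U → ∀ u ∈ U, u < y)
    (hV : k ≤ V.card) (hVW : V ⊆ W) (hVl : ∀ y ∈ W, y ∉ V → ∀ v ∈ V, y < v)
    {S C D : Set ℤ} {F : Finset ℤ} (hC : ∀ u ∈ U, u ∈ C) (hD : ∀ v ∈ V, v ∈ D) (hS : ∀ w ∈ W, w ∈ S)
    (hF : ∀ w ∈ W, w ∉ F) : Seg P k S C D F (W.sort) := by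
  classical
  set l := W.sort with hl
  have hlW : l.toFinset = W := Finset.sort_toFinset ..
  have hmem : ∀ y, y ∈ l ↔ y ∈ W := fun y => by rw [← hlW, List.mem_toFinset]
  have hpw : l.Pairwise (· < ·) := (Finset.sortedLT_sort W).pairwise
  have hlen : l.length = W.card := Finset.length_sort ..
  refine ⟨Finset.sort_nodup .., ?_, fun x hx => hS x ((hmem x).1 hx), fun x hx => hF x ((hmem x).1 hx),
    ?_, ?_, ?_⟩
  · rw [hlen]; exact hU.trans (Finset.card_le_card hUW)
  · intro y hy
    obtain ⟨t, ht, hty⟩ := List.getElem_of_mem hy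
    have htk : t < k := by
      rw [List.length_take] at ht; omega
    have htl : t < l.length := by
      rw [List.length_take] at ht; omega
    have hty' : l[t] = y := by rw [← hty, List.getElem_take]
    by_cases hyU : y ∈ U
    · exact hC y hyU
    · exfalso
      have h1 : U ⊆ (l.take t).toFinset := by
        intro u hu
        have hu1 : u < y := hUl y ((hmem y).1 (hty' ▸ List.getElem_mem htl)) hyU u hu
        obtain ⟨s, hs, hsu⟩ := List.getElem_of_mem ((hmem u).2 (hUW hu))
        rw [List.mem_toFinset]
        have hst : s < t := by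
          by_contra hcon
          rcases Nat.lt_or_eq_of_le (not_lt.1 hcon) with h | h
          · have := List.pairwise_iff_getElem.1 hpw t s htl hs h
            rw [hty', hsu] at this
            exact absurd hu1 (not_lt.2 this.le)
          · subst h
            rw [hty'] at hsu
            exact absurd hu1 (by rw [hsu]; exact lt_irrefl _)
        rw [← hsu]
        exact List.mem_take_iff_getElem.2 ⟨s, by omega, rfl⟩
      have h2 := (Finset.card_le_card h1).trans (List.toFinset_card_le _)
      rw [List.length_take] at h2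
      omega
  · intro y hy
    obtain ⟨t', ht', hty⟩ := List.getElem_of_mem hy
    rw [List.length_drop] at ht'
    rw [List.getElem_drop] at hty
    set t := l.length - k + t' with htdef
    have htl : t < l.length := by omega
    by_cases hyV : y ∈ V
    · exact hD y hyV
    · exfalso
      have h1 : V ⊆ (l.drop (t + 1)).toFinset := by
        intro v hv
        have hv1 : y < v := hVl y ((hmem y).1 (hty ▸ List.getElem_mem htl)) hyV v hv
        obtain ⟨s, hs, hsv⟩ := List.getElem_of_mem ((hmem v).2 (hVW hv))
        rw [List.mem_toFinset]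
        have hst : t < s := by
          by_contra hcon
          rcases Nat.lt_or_eq_of_le (not_lt.1 hcon) with h | h
          · have := List.pairwise_iff_getElem.1 hpw s t hs htl h
            rw [hty, hsv] at this
            exact absurd hv1 (not_lt.2 this.le)
          · subst h
            rw [hty] at hsv
            exact absurd hv1 (by rw [hsv]; exact lt_irrefl _)
        rw [← hsv]
        rw [List.mem_drop_iff_getElem]
        exact ⟨s - (t + 1), by omega, by congr 1; omega⟩
      have h2 := (Finset.card_le_card h1).trans (List.toFinset_card_le _)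
      rw [List.length_drop] at h2
      have := Finset.card_le_card hUW
      omega
  · intro s hs hne _
    refine hconv _ (by
      rw [Finset.nonempty_iff_ne_empty]
      exact fun h => hne (List.toFinset_eq_empty_iff s |>.1 h)) (convex_infix hpw ?_ hs)
    rw [hlW]; exact hW

end Pool.Agent.Run7.h783.OneSeq
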