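import Mathlib
import Pool.Agent.Run7.h783.OneSeq.Sorted
import Pool.Agent.R494.CG7
import Pool.Agent.W68.HerShift

set_option autoImplicit false

/-!
Windows of primes, infinite cliques of windows, and connections between two of four translates.
-/

namespace Pool.Agent.Run7.h783.OneSeq

open Finset

/-- for infinitely many `n ≡ r` modulo `q` the primes between the least and the largest of the numbers
`n + q w`, `w ∈ W`, are exactly these numbers -/
def PW (q : ℕ) (r : ℤ) (W : Finset ℤ) : Prop :=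
  {n : ℕ | (n : ℤ) ≡ r [ZMOD q] ∧ ∀ y : ℤ, (∃ a ∈ W, (q : ℤ) * a ≤ y) → (∃ b ∈ W, y ≤ (q : ℤ) * b) →
    (Nat.Prime ((n : ℤ) + y).toNat ↔ ∃ x ∈ W, y = (q : ℤ) * x)}.Infinite

theorem trInv (q : ℕ) (r : ℤ) : TrInv (PW q r) := by
  intro W z hW
  apply Set.infinite_of_forall_exists_gt
  intro N
  obtain ⟨n, ⟨hn1, hn2⟩, hn3⟩ := Set.Infinite.exists_gt hW (N + (q * z).natAbs)
  have habs : (q : ℤ) * z ≤ (((q : ℤ) * z).natAbs : ℤ) := by
    rw [Int.natCast_natAbs]; exact le_abs_self _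
  have habs' : ((N + ((q : ℤ) * z).natAbs : ℕ) : ℤ) < n := by exact_mod_cast hn3
  push_cast at habs'
  have hpos : (N : ℤ) < (n : ℤ) - q * z := by
    have : |(q : ℤ) * z| = (((q : ℤ) * z).natAbs : ℤ) := (Int.natCast_natAbs _).symm
    have h2 := le_abs_self ((q : ℤ) * z)
    linarith
  have hcast : ((((n : ℤ) - q * z).toNat : ℕ) : ℤ) = (n : ℤ) - q * z :=
    Int.toNat_of_nonneg (by have : (0 : ℤ) ≤ N := Int.natCast_nonneg N; linarith)
  refine ⟨((n : ℤ) - q * z).toNat, ⟨?_, ?_⟩, ?_⟩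
  · rw [hcast]
    have h1 : (n : ℤ) - q * z ≡ n [ZMOD q] := by
      rw [Int.modEq_iff_dvd]
      exact ⟨z, by ring⟩
    exact h1.trans hn1
  · rintro y ⟨a, ha, hay⟩ ⟨b, hb, hyb⟩
    obtain ⟨a', ha', rfl⟩ := mem_image.1 ha
    obtain ⟨b', hb', rfl⟩ := mem_image.1 hb
    have h1 := hn2 (y - q * z) ⟨a', ha', by linarith⟩ ⟨b', hb', by linarith⟩
    rw [hcast, show (n : ℤ) - q * z + y = n + (y - q * z) by ring, h1]
    constructor
    · rintro ⟨x, hx, hxy⟩
      exact ⟨x + z, mem_image_of_mem _ hx, by linarith⟩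
    · rintro ⟨x, hx, hxy⟩
      obtain ⟨x', hx', rfl⟩ := mem_image.1 hx
      exact ⟨x', hx', by linarith⟩
  · have h1 : (N : ℤ) < ((((n : ℤ) - q * z).toNat : ℕ) : ℤ) := by rw [hcast]; exact hpos
    exact_mod_cast h1

/-- a radius -/
theorem exists_radius (q : ℕ) (X : Finset ℤ) : ∃ R : ℕ, ∀ x ∈ X, |(q : ℤ) * x| ≤ R := by
  refine ⟨X.sup fun x => ((q : ℤ) * x).natAbs, fun x hx => ?_⟩
  rw [Int.abs_eq_natAbs]
  exact_mod_cast le_sup (f := fun x : ℤ => ((q : ℤ) * x).natAbs) hx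

theorem pw_of_exact (q : ℕ) (hq : 1 ≤ q) (r : ℤ) (X : Finset ℤ) (hX : Pool.Agent.R494.CG.Ex q r X)
    (s : Finset ℤ) (hs : Convex X s) : PW q r s := by
  have hq0 : (0 : ℤ) < q := by exact_mod_cast hq
  obtain ⟨R, hR⟩ := exists_radius q X
  refine Set.Infinite.mono ?_ (hX R)
  rintro n ⟨h1, h2⟩
  refine ⟨h1, ?_⟩
  rintro y ⟨a, ha, hay⟩ ⟨b, hb, hyb⟩
  have hab : |y| ≤ R := by
    have h3 := abs_le.1 (hR a (hs.1 ha))
    have h4 := abs_le.1 (hR b (hs.1 hb))
    rw [abs_le]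
    constructor <;> linarith [h3.1, h4.2]
  rw [h2 y hab]
  constructor
  · rintro ⟨x, hx, rfl⟩
    exact ⟨x, hs.2 x hx ⟨a, ha, le_of_mul_le_mul_left hay hq0⟩ ⟨b, hb, le_of_mul_le_mul_left hyb hq0⟩, rfl⟩
  · rintro ⟨x, hx, rfl⟩
    exact ⟨x, hs.1 hx, rfl⟩

/-- the numbers `(b i + 3)!` -/
def BB (b : ℕ → ℕ) : Set ℤ := {x | ∃ i, x = (((b i + 3).factorial : ℕ) : ℤ)}

theorem exists_clique (q : ℕ) (hq : 1 ≤ q) (r : ℤ) (hqr : IsCoprime r (q : ℤ)) :
    ∃ b : ℕ → ℕ, StrictMono b ∧ Clique (PW q r) (BB b) := by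
  classical
  have hq0 : (0 : ℤ) < q := by exact_mod_cast hq
  have hfac : StrictMono (fun i : ℕ => (i + 3).factorial) := by
    intro i j hij
    exact (Nat.factorial_lt (by omega)).2 (by simpa using hij)
  set φ : ℕ → ℤ := fun i => (q : ℤ) * (((i + 3).factorial : ℕ) : ℤ) with hφdef
  have hφ : Function.Injective φ := by
    intro i j hij
    have h1 := mul_left_cancel₀ hq0.ne' hij
    exact hfac.injective (by exact_mod_cast h1)
  obtain ⟨b, hb, hH⟩ := Pool.Agent.W68.Her.main_shifts (fun _ => φ) (fun _ => hφ) (fun _ => q)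
    (fun _ => hq) (fun _ => r)
  refine ⟨b, hb, ?_, ?_⟩
  · have h1 : BB b = Set.range (fun i => (((b i + 3).factorial : ℕ) : ℤ)) := by
      ext x
      constructor
      · rintro ⟨i, rfl⟩; exact ⟨i, rfl⟩
      · rintro ⟨i, rfl⟩; exact ⟨i, rfl⟩
    rw [h1]
    apply Set.infinite_range_of_injective
    intro i j hij
    have hij' : (((b i + 3).factorial : ℕ) : ℤ) = (((b j + 3).factorial : ℕ) : ℤ) := hij
    exact hb.injective (hfac.injective (by exact_mod_cast hij'))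
  · intro W hW hWB
    obtain ⟨R, hR⟩ := exists_radius q W
    have h1 := hH 0 {i | (((b i + 3).factorial : ℕ) : ℤ) ∈ W} (by
      intro i _
      refine ⟨Nat.zero_le i, ?_⟩
      obtain ⟨u, v, huv⟩ := hqr
      exact ⟨u, v - u * (((b i + 3).factorial : ℕ) : ℤ), by
        simp only [hφdef]
        linear_combination huv⟩) R
    refine h1.mono ?_
    rintro n ⟨h2, h3⟩
    refine ⟨h2, ?_⟩
    rintro y ⟨a, ha, hay⟩ ⟨a', ha', hya⟩
    have hab : |y| ≤ R := by
      have h3 := abs_le.1 (hR a ha)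
      have h4 := abs_le.1 (hR a' ha')
      rw [abs_le]
      constructor <;> linarith [h3.1, h4.2]
    rw [h3 y hab]
    constructor
    · rintro ⟨i, hi, rfl⟩
      exact ⟨_, hi, rfl⟩
    · rintro ⟨x, hx, rfl⟩
      obtain ⟨i, rfl⟩ := hWB (mem_coe.2 hx)
      exact ⟨i, hx, rfl⟩

/-- the letter of a class -/
def lt4 (m : ℕ) (hm : 1 ≤ m) (g : Fin (4 * m)) : Fin 4 :=
  ⟨g.1 / m, by rw [Nat.div_lt_iff_lt_mul (by omega)]; have := g.2; omega⟩

theorem card_lt4 (m : ℕ) (hm : 1 ≤ m) (a : Fin 4) :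
    (univ.filter (fun g : Fin (4 * m) => lt4 m hm g = a)).card ≤ m := by
  have h1 : (univ.filter (fun g : Fin (4 * m) => lt4 m hm g = a)).card ≤ (Ico (a.1 * m) (a.1 * m + m)).card := by
    apply card_le_card_of_injOn (fun g => g.1)
    · intro g hg
      have h2 := (mem_filter.1 (mem_coe.1 hg)).2
      have h3 : g.1 / m = a.1 := congrArg Fin.val h2
      rw [Nat.div_eq_iff (by omega)] at h3
      rw [mem_coe, mem_Ico]
      show a.1 * m ≤ g.1 ∧ g.1 < a.1 * m + m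
      constructor <;> omega
    · intro g _ g' _ h
      exact Fin.ext h
  rwa [Nat.card_Ico, Nat.add_sub_cancel_left] at h1

theorem two_of_four (h : Fin 4 → ℕ) (m k : ℕ) (hm : ∀ a, h a ≤ m) (hs : m + 3 * k + 1 ≤ ∑ a, h a) :
    ∃ i j : Fin 4, i < j ∧ k < h i ∧ k < h j := by
  by_contra hcon
  push Not at hcon
  rw [Fin.sum_univ_four] at hs
  have h01 := hcon 0 1 (by decide)
  have h02 := hcon 0 2 (by decide)
  have h03 := hcon 0 3 (by decide)
  have h12 := hcon 1 2 (by decide)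
  have h13 := hcon 1 3 (by decide)
  have h23 := hcon 2 3 (by decide)
  have := hm 0
  have := hm 1
  have := hm 2
  have := hm 3
  omega

theorem fact_gap (b : ℕ → ℕ) (hb : StrictMono b) {n n' : ℕ} (h : n < n') :
    ((((b n + 3).factorial : ℕ) : ℤ)) + n ≤ (((b n' + 3).factorial : ℕ) : ℤ) := by
  have h1 : b n + 1 ≤ b n' := hb h
  have h2 : (b n + 3 + 1).factorial ≤ (b n' + 3).factorial := Nat.factorial_le (by omega)
  rw [Nat.factorial_succ] at h2
  have h3 : b n + 3 ≤ (b n + 3).factorial := Nat.self_le_factorial _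
  have h4 : n ≤ b n := hb.le_apply
  have h5 : (b n + 3).factorial + n ≤ (b n' + 3).factorial := by nlinarith
  exact_mod_cast h5

theorem exists_class (z : Fin 4 → ℤ) (c : ℤ) (hc : ∀ g, ¬ (3 : ℤ) ∣ z g - c) (p : ℕ) (hp : p.Prime)
    (hp2 : p ≠ 2) : ∃ c : ℤ, ∀ g, ¬ (p : ℤ) ∣ z g - c := by
  classical
  by_cases hp3 : p = 3
  · subst hp3
    exact ⟨c, by exact_mod_cast hc⟩
  · have hp5 : 5 ≤ p := by
      have h2 := hp.two_le
      rcases Nat.lt_or_ge p 5 with h | h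
      · interval_cases p
        · exact absurd rfl hp2
        · exact absurd rfl hp3
        · exact absurd hp (by decide)
      · exact h
    have : NeZero p := ⟨by omega⟩
    have hns : ¬ Function.Surjective (fun g : Fin 4 => ((z g : ℤ) : ZMod p)) := by
      intro hs
      have := Fintype.card_le_of_surjective _ hs
      rw [ZMod.card, Fintype.card_fin] at this
      omega
    simp only [Function.Surjective, not_forall, not_exists] at hns
    obtain ⟨y, hy⟩ := hns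
    obtain ⟨c, rfl⟩ := ZMod.intCast_surjective y
    refine ⟨c, fun g hd => hy g ?_⟩
    have h1 := (ZMod.intCast_zmod_eq_zero_iff_dvd (z g - c) p).2 hd
    push_cast at h1
    linear_combination h1

theorem four (q : ℕ) (r : ℤ) (hq : 1 ≤ q) (hq2 : 2 ∣ q) (hqr : IsCoprime r (q : ℤ)) (b : ℕ → ℕ)
    (hb : StrictMono b) (z : Fin 4 → ℤ) (c : ℤ) (hc : ∀ g, ¬ (3 : ℤ) ∣ z g - c) (k : ℕ) (F : Finset ℤ) :
    ∃ i j : Fin 4, i < j ∧ ∃ l, Seg (PW q r) k {x | ∃ g, i ≤ g ∧ g ≤ j ∧ x ∈ tr (BB b) (z g)}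
      (tr (BB b) (z i)) (tr (BB b) (z j)) F l := by
  classical
  obtain ⟨c₀, hc₀, hc₁, hQ⟩ := Pool.Agent.R494.CG.qg
  obtain ⟨m, hm1, hm⟩ : ∃ m : ℕ, 1 ≤ m ∧ (4 - c₀) * ((m + 3 * k : ℕ) : ℝ) < ((4 * m : ℕ) : ℝ) := by
    obtain ⟨m, hm⟩ := exists_nat_gt ((4 - c₀) * (3 * k) / c₀ + 1)
    have h0 : 0 ≤ (4 - c₀) * (3 * k) / c₀ := by
      have : 0 ≤ 4 - c₀ := by linarith
      positivity
    refine ⟨m, ?_, ?_⟩
    · have : (1 : ℝ) < m := by linarith
      exact_mod_cast this.le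
    · have h1 : (4 - c₀) * (3 * k) / c₀ < m := by linarith
      rw [div_lt_iff₀ hc₀] at h1
      push_cast
      linarith
  obtain ⟨K, hK, hQ'⟩ := hQ (4 * m) (m + 3 * k) (by omega) hm
  -- bounds
  obtain ⟨Z, hZ⟩ : ∃ Z : ℕ, ∀ g, |z g| ≤ Z := by
    refine ⟨univ.sup fun g => (z g).natAbs, fun g => ?_⟩
    rw [Int.abs_eq_natAbs]
    exact_mod_cast le_sup (f := fun g => (z g).natAbs) (mem_univ g)
  obtain ⟨FB, hFB⟩ : ∃ FB : ℕ, ∀ f ∈ F, |f| ≤ FB := by
    refine ⟨F.sup fun f => f.natAbs, fun f hf => ?_⟩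
    rw [Int.abs_eq_natAbs]
    exact_mod_cast le_sup (f := fun f : ℤ => f.natAbs) hf
  set n₀ : ℕ := 4 * m * K + 2 * Z + FB + 1 with hn₀
  set β : ℕ → ℤ := fun n => (((b n + 3).factorial : ℕ) : ℤ) with hβ
  set ix : Fin (4 * m) → Fin K → ℕ := fun g i => n₀ + g.1 * K + i.1 with hix
  set x : Fin (4 * m) → Fin K → ℤ := fun g i => β (ix g i) + z (lt4 m hm1 g) with hx
  have hlt : ∀ g i g' i', ix g i < ix g' i' → x g i < x g' i' := by
    intro g i g' i' h
    have h1 := fact_gap b hb h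
    have h2 := abs_le.1 (hZ (lt4 m hm1 g))
    have h3 := abs_le.1 (hZ (lt4 m hm1 g'))
    have h4 : (2 * Z : ℤ) < ix g i := by
      have : 2 * Z < ix g i := by simp only [hix]; omega
      exact_mod_cast this
    simp only [hx, hβ]
    linarith [h2.2, h3.1]
  have hixinj : ∀ g i g' i', ix g i = ix g' i' → g = g' ∧ i = i' := by
    intro g i g' i' h
    have hi := i.2
    have hi' := i'.2
    have h1 : g.1 * K + i.1 = g'.1 * K + i'.1 := by simp only [hix] at h; omega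
    have hg : g.1 = g'.1 := by
      have e1 : (g.1 * K + i.1) / K = g.1 := by
        rw [mul_comm, Nat.mul_add_div (by omega), Nat.div_eq_of_lt hi, add_zero]
      have e2 : (g'.1 * K + i'.1) / K = g'.1 := by
        rw [mul_comm, Nat.mul_add_div (by omega), Nat.div_eq_of_lt hi', add_zero]
      rw [← e1, ← e2, h1]
    refine ⟨Fin.ext hg, Fin.ext ?_⟩
    rw [hg] at h1
    omega
  have hle : ∀ g i g' i', x g i ≤ x g' i' → ix g i ≤ ix g' i' := by
    intro g i g' i' h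
    by_contra hcon
    exact absurd h (not_le.2 (hlt _ _ _ _ (not_le.1 hcon)))
  have hinj : Function.Injective (fun y : Fin (4 * m) × Fin K => x y.1 y.2) := by
    rintro ⟨g, i⟩ ⟨g', i'⟩ h
    have h1 : ix g i = ix g' i' := le_antisymm (hle _ _ _ _ (le_of_eq h)) (hle _ _ _ _ (le_of_eq h.symm))
    obtain ⟨h2, h3⟩ := hixinj _ _ _ _ h1
    rw [h2, h3]
  have hloc : ∀ p : ℕ, p.Prime → p ≤ 4 * m * K → ¬ (p : ℤ) ∣ q → ∃ c : ℤ, ∀ g i, ¬ (p : ℤ) ∣ x g i - c := by
    intro p hp hple hpq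
    have hp2 : p ≠ 2 := by
      rintro rfl
      exact hpq (by exact_mod_cast hq2)
    obtain ⟨c', hc'⟩ := exists_class z c hc p hp hp2
    refine ⟨c', fun g i hd => hc' (lt4 m hm1 g) ?_⟩
    have h1 : (p : ℤ) ∣ β (ix g i) := by
      simp only [hβ]
      have h2 : p ∣ (b (ix g i) + 3).factorial := by
        apply Nat.dvd_factorial hp.pos
        have h3 : ix g i ≤ b (ix g i) := hb.le_apply
        have h4 : p ≤ ix g i := by simp only [hix]; omega
        omega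
      exact_mod_cast h2
    have h2 := dvd_sub hd h1
    have h3 : x g i - c' - β (ix g i) = z (lt4 m hm1 g) - c' := by simp only [hx]; ring
    rwa [h3] at h2
  obtain ⟨X, hXU, hXc, hXE⟩ := Pool.Agent.R494.CG.exact_all (4 * m) K (m + 3 * k) hQ' q r hq hqr x hinj hloc
  -- the hit classes
  set H : Finset (Fin (4 * m)) := univ.filter (fun g : Fin (4 * m) => ∃ i, x g i ∈ X) with hH
  have hsum : ∑ a, (H.filter (fun g => lt4 m hm1 g = a)).card = H.card := by
    rw [← card_eq_sum_card_fiberwise (f := lt4 m hm1) (s := H) (t := univ) (fun _ _ => mem_coe.2 (mem_univ _))]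
  obtain ⟨i, j, hij, hi, hj⟩ := two_of_four (fun a => (H.filter (fun g => lt4 m hm1 g = a)).card) m k
    (fun a => (card_le_card (filter_subset_filter _ (filter_subset _ _))).trans (card_lt4 m hm1 a))
    (by rw [hsum]; exact hXc)
  -- elements of `X` with a given letter
  set Xa : Fin 4 → Finset ℤ := fun a => X.filter (fun y => ∃ g s, lt4 m hm1 g = a ∧ y = x g s) with hXa
  have hXacard : ∀ a, (H.filter (fun g => lt4 m hm1 g = a)).card ≤ (Xa a).card := by
    intro a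
    have h1 : ∀ g ∈ H.filter (fun g => lt4 m hm1 g = a), ∃ s, x g s ∈ X := fun g hg =>
      (mem_filter.1 (mem_filter.1 hg).1).2
    have : Nonempty (Fin K) := ⟨⟨0, by omega⟩⟩
    choose! ss hss using h1
    apply card_le_card_of_injOn (fun g => x g (ss g))
    · intro g hg
      exact mem_coe.2 (mem_filter.2 ⟨hss g hg, g, ss g, (mem_filter.1 hg).2, rfl⟩)
    · intro g _ g' _ h
      exact congrArg Prod.fst (hinj (a₁ := (g, ss g)) (a₂ := (g', ss g')) h)
  have hlet : ∀ g s g' s', x g s ≤ x g' s' → lt4 m hm1 g ≤ lt4 m hm1 g' := by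
    intro g s g' s' h
    have h1 := hle _ _ _ _ h
    have h2 : g.1 ≤ g'.1 := by
      by_contra hcon
      have h3 : g'.1 + 1 ≤ g.1 := by omega
      have h4 : (g'.1 + 1) * K ≤ g.1 * K := Nat.mul_le_mul_right K h3
      have h5 := s'.2
      simp only [hix] at h1
      rw [add_mul] at h4
      omega
    exact Fin.le_def.2 (Nat.div_le_div_right h2)
  have hXmem : ∀ y ∈ X, ∃ g s, y = x g s := by
    intro y hy
    obtain ⟨⟨g, s⟩, -, h⟩ := mem_image.1 (hXU hy)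
    exact ⟨g, s, h.symm⟩
  set W : Finset ℤ := X.filter (fun y => (∃ u ∈ Xa i, u ≤ y) ∧ (∃ v ∈ Xa j, y ≤ v)) with hW
  have hWX : W ⊆ X := filter_subset _ _
  have hconvW : Convex X W := by
    refine ⟨hWX, ?_⟩
    rintro y hy ⟨u, hu, huy⟩ ⟨v, hv, hyv⟩
    obtain ⟨u', hu', huu⟩ := (mem_filter.1 hu).2.1
    obtain ⟨v', hv', hvv⟩ := (mem_filter.1 hv).2.2
    exact mem_filter.2 ⟨hy, ⟨u', hu', huu.trans huy⟩, ⟨v', hv', hyv.trans hvv⟩⟩
  have hne : ∀ a, k < (Xa a).card → (Xa a).Nonempty := fun a ha => card_pos.1 (by omega)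
  have hki := hi.trans_le (hXacard i)
  have hkj := hj.trans_le (hXacard j)
  have hcmp : ∀ u ∈ Xa i, ∀ v ∈ Xa j, u < v := by
    intro u hu v hv
    obtain ⟨g, s, hg, rfl⟩ := (mem_filter.1 hu).2
    obtain ⟨g', s', hg', rfl⟩ := (mem_filter.1 hv).2
    by_contra hcon
    have := hlet _ _ _ _ (not_lt.1 hcon)
    rw [hg, hg'] at this
    exact absurd hij (not_lt.2 this)
  have hiW : Xa i ⊆ W := by
    intro u hu
    obtain ⟨v, hv⟩ := hne j hkj
    exact mem_filter.2 ⟨(mem_filter.1 hu).1, ⟨u, hu, le_rfl⟩, ⟨v, hv, (hcmp u hu v hv).le⟩⟩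
  have hjW : Xa j ⊆ W := by
    intro v hv
    obtain ⟨u, hu⟩ := hne i hki
    exact mem_filter.2 ⟨(mem_filter.1 hv).1, ⟨u, hu, (hcmp u hu v hv).le⟩, ⟨v, hv, le_rfl⟩⟩
  have htr : ∀ g s, x g s ∈ tr (BB b) (z (lt4 m hm1 g)) := by
    intro g s
    refine ⟨ix g s, ?_⟩
    simp only [hx, hβ]
    ring
  refine ⟨i, j, hij, W.sort, seg_of_sorted (fun s _ hs => pw_of_exact q hq r X hXE s hs) hconvW hiW hki.le
    ?_ hkj.le hjW ?_ ?_ ?_ ?_ ?_⟩
  · -- elements of `W` not in `Xa i` are larger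
    intro y hy hyU u hu
    obtain ⟨g, s, rfl⟩ := hXmem y (hWX hy)
    obtain ⟨g', s', hg', rfl⟩ := (mem_filter.1 hu).2
    by_contra hcon
    have h1 := hlet _ _ _ _ (not_lt.1 hcon)
    obtain ⟨w, hw, hwy⟩ := (mem_filter.1 hy).2.1
    obtain ⟨g'', s'', hg'', rfl⟩ := (mem_filter.1 hw).2
    have h2 := hlet _ _ _ _ hwy
    rw [hg'] at h1
    rw [hg''] at h2
    exact hyU (mem_filter.2 ⟨hWX hy, g, s, le_antisymm h1 h2, rfl⟩)
  · intro y hy hyV v hv
    obtain ⟨g, s, rfl⟩ := hXmem y (hWX hy)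
    obtain ⟨g', s', hg', rfl⟩ := (mem_filter.1 hv).2
    by_contra hcon
    have h1 := hlet _ _ _ _ (not_lt.1 hcon)
    obtain ⟨w, hw, hwy⟩ := (mem_filter.1 hy).2.2
    obtain ⟨g'', s'', hg'', rfl⟩ := (mem_filter.1 hw).2
    have h2 := hlet _ _ _ _ hwy
    rw [hg'] at h1
    rw [hg''] at h2
    exact hyV (mem_filter.2 ⟨hWX hy, g, s, le_antisymm h2 h1, rfl⟩)
  · intro u hu
    obtain ⟨g, s, hg, rfl⟩ := (mem_filter.1 hu).2
    rw [← hg]
    exact htr g s
  · intro v hv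
    obtain ⟨g, s, hg, rfl⟩ := (mem_filter.1 hv).2
    rw [← hg]
    exact htr g s
  · intro y hy
    obtain ⟨g, s, rfl⟩ := hXmem y (hWX hy)
    refine ⟨lt4 m hm1 g, ?_, ?_, htr g s⟩
    · obtain ⟨w, hw, hwy⟩ := (mem_filter.1 hy).2.1
      obtain ⟨g'', s'', hg'', rfl⟩ := (mem_filter.1 hw).2
      rw [← hg'']
      exact hlet _ _ _ _ hwy
    · obtain ⟨w, hw, hwy⟩ := (mem_filter.1 hy).2.2
      obtain ⟨g'', s'', hg'', rfl⟩ := (mem_filter.1 hw).2
      rw [← hg'']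
      exact hlet _ _ _ _ hwy
  · intro y hy hyF
    obtain ⟨g, s, rfl⟩ := hXmem y (hWX hy)
    have h1 := (abs_le.1 (hFB _ hyF)).2
    have h2 := (abs_le.1 (hZ (lt4 m hm1 g))).1
    have h3 : ix g s ≤ (b (ix g s) + 3).factorial := by
      have h4 : ix g s ≤ b (ix g s) := hb.le_apply
      have h5 : b (ix g s) + 3 ≤ (b (ix g s) + 3).factorial := Nat.self_le_factorial _
      omega
    have h4 : FB + Z < ix g s := by simp only [hix]; omega
    have h5 : ((FB + Z : ℕ) : ℤ) < β (ix g s) := by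
      simp only [hβ]
      exact_mod_cast h4.trans_le h3
    simp only [hx] at h1
    push_cast at h5
    linarith

end Pool.Agent.Run7.h783.OneSeq
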