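import Mathlib
import Pool.Agent.Run7.h783.OneSeq.Walk

set_option autoImplicit false

/-!
From loops to an infinite sequence through all the elements.
-/

namespace Pool.Agent.Run7.h783.OneSeq

variable {P : Finset ℤ → Prop}

section
variable (lp : ℕ → Finset ℤ → ℤ → List ℤ) (e : ℕ → ℤ)

open Classical in
/-- one step of the construction -/
noncomputable def stp (j : ℕ) (A : List ℤ) : List ℤ :=
  if h : ∃ n, e n ∉ A then lp (j + 1) A.toFinset (e (Nat.find h)) else []

/-- the initial segments -/
noncomputable def AA : ℕ → List ℤ
  | 0 => []
  | j + 1 => AA j ++ stp lp e j (AA j)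

end

theorem exists_sequence (S : Set ℤ) (hS : S.Infinite) (B : Set ℤ) (hB : Clique P B)
    (hloop : ∀ (k : ℕ) (F : Finset ℤ) (y : ℤ), y ∈ S → y ∉ F → ∃ l, Seg P k S B B F l ∧ y ∈ l)
    (e : ℕ → ℤ) (he : Set.range e = S) :
    ∃ x : ℕ → ℤ, Function.Injective x ∧ Set.range x = S ∧
      ∀ k, 1 ≤ k → ∃ i₀, ∀ i ≥ i₀, P ((Finset.range k).image fun j => x (i + j)) := by
  classical
  have hl : ∀ (k : ℕ) (F : Finset ℤ) (y : ℤ), ∃ l, y ∈ S → y ∉ F → Seg P k S B B F l ∧ y ∈ l := by
    intro k F y
    by_cases h : y ∈ S ∧ y ∉ F
    · obtain ⟨l, hl⟩ := hloop k F y h.1 h.2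
      exact ⟨l, fun _ _ => hl⟩
    · exact ⟨[], fun h1 h2 => absurd ⟨h1, h2⟩ h⟩
  choose lp hlp using hl
  set A := AA lp e with hA
  have heS : ∀ n, e n ∈ S := fun n => he ▸ Set.mem_range_self n
  have hex : ∀ L : List ℤ, ∃ n, e n ∉ L := by
    intro L
    by_contra hcon
    push Not at hcon
    apply hS
    refine (L.toFinset.finite_toSet).subset ?_
    rw [← he]
    rintro _ ⟨n, rfl⟩
    exact Finset.mem_coe.2 (List.mem_toFinset.2 (hcon n))
  set L : ℕ → List ℤ := fun j => stp lp e j (A j) with hL
  have hAs : ∀ j, A (j + 1) = A j ++ L j := fun j => rfl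
  have hLj : ∀ j, Seg P (j + 1) S B B (A j).toFinset (L j) ∧ e (Nat.find (hex (A j))) ∈ L j := by
    intro j
    have h1 : L j = lp (j + 1) (A j).toFinset (e (Nat.find (hex (A j)))) := by
      simp only [hL, stp, dif_pos (hex (A j))]
    rw [h1]
    exact hlp _ _ _ (heS _) (fun h => Nat.find_spec (hex (A j)) (List.mem_toFinset.1 h))
  -- basic properties of the initial segments
  have hnd : ∀ j, (A j).Nodup := by
    intro j
    induction j with
    | zero => exact List.nodup_nil
    | succ j ih =>
      rw [hAs, List.nodup_append]
      refine ⟨ih, (hLj j).1.nodup, fun a ha b hb hab => ?_⟩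
      subst hab
      exact (hLj j).1.av a hb (List.mem_toFinset.2 ha)
  have hsub : ∀ j, ∀ x ∈ A j, x ∈ S := by
    intro j
    induction j with
    | zero => intro x hx; exact absurd hx (by simp [hA, AA])
    | succ j ih =>
      intro x hx
      rw [hAs] at hx
      rcases List.mem_append.1 hx with h | h
      · exact ih x h
      · exact (hLj j).1.sub x h
  have hpre : ∀ j j', j ≤ j' → A j <+: A j' := by
    intro j j' h
    induction j', h using Nat.le_induction with
    | base => exact List.prefix_rfl
    | succ m hm ih => exact ih.trans (by rw [hAs]; exact List.prefix_append _ _)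
  have hlen : ∀ j, j ≤ (A j).length := by
    intro j
    induction j with
    | zero => exact Nat.zero_le _
    | succ j ih =>
      rw [hAs, List.length_append]
      have := (hLj j).1.len
      omega
  have hlenlt : ∀ i, i < (A (i + 1)).length := fun i => hlen (i + 1)
  -- the first missing element
  have hfind : ∀ n, ∀ m < n, e m ∈ A n := by
    intro n
    induction n with
    | zero => intro m hm; omega
    | succ n ih =>
      intro m hm
      rw [hAs, List.mem_append]
      by_cases h : e m ∈ A n
      · exact Or.inl h
      · right
        have hmn : m = n := by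
          by_contra hne
          exact h (ih m (by omega))
        have h1 : Nat.find (hex (A n)) = m := by
          rw [Nat.find_eq_iff]
          refine ⟨h, fun m' hm' => ?_⟩
          rw [not_not]
          exact ih m' (by omega)
        rw [← h1]
        exact (hLj n).2
  -- the sequence
  set x : ℕ → ℤ := fun i => (A (i + 1))[i]'(hlenlt i) with hx
  have hxget : ∀ j i (h : i < (A j).length), x i = (A j)[i] := by
    intro j i h
    simp only [hx]
    rcases le_total (i + 1) j with h1 | h1
    · exact (hpre _ _ h1).getElem (hlenlt i)
    · exact ((hpre _ _ h1).getElem h).symm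
  refine ⟨x, ?_, ?_, ?_⟩
  · intro i j hij
    have hi : i < (A (max i j + 1)).length := lt_of_lt_of_le (Nat.lt_succ_of_le (le_max_left _ _)) (hlen _)
    have hj : j < (A (max i j + 1)).length := lt_of_lt_of_le (Nat.lt_succ_of_le (le_max_right _ _)) (hlen _)
    rw [hxget _ i hi, hxget _ j hj] at hij
    exact (List.Nodup.getElem_inj_iff (hnd _)).1 hij
  · apply Set.eq_of_subset_of_subset
    · rintro _ ⟨i, rfl⟩
      exact hsub _ _ (List.getElem_mem (hlenlt i))
    · intro y hy
      rw [← he] at hy
      obtain ⟨n, rfl⟩ := hy
      have h1 := hfind (n + 1) n (Nat.lt_succ_self n)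
      obtain ⟨i, hi, hi'⟩ := List.getElem_of_mem h1
      exact ⟨i, by rw [hxget _ i hi, hi']⟩
  · intro k hk
    refine ⟨(A k).length, fun i hi => ?_⟩
    -- a long initial segment
    have htail : ∀ J, k + 1 ≤ J → Seg P k S B B (A k).toFinset ((A J).drop (A k).length) := by
      intro J hJ
      induction J, hJ using Nat.le_induction with
      | base =>
        rw [hAs, List.drop_left]
        exact (hLj k).1.mono (Nat.le_succ k) subset_rfl subset_rfl
      | succ m hm ih =>
        have hkm : k ≤ m := by omega
        rw [hAs, List.drop_append_of_le_length (hpre k m hkm).length_le]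
        refine ih.append hB ((hLj m).1.mono (by omega) subset_rfl ?_)
        intro z hz
        rcases Finset.mem_union.1 hz with h | h
        · exact List.mem_toFinset.2 ((hpre k m hkm).subset (List.mem_toFinset.1 h))
        · exact List.mem_toFinset.2 (List.mem_of_mem_drop (List.mem_toFinset.1 h))
    set J := i + k + 1 with hJ
    have hJlen : i + k ≤ (A J).length := le_trans (by omega) (hlen J)
    have hseg := htail J (by omega)
    set w := ((A J).drop i).take k with hw
    have hwl : w.length = k := by
      rw [hw, List.length_take, List.length_drop]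
      omega
    have hinf : w <:+: (A J).drop (A k).length := by
      have h1 : (A J).drop i = ((A J).drop (A k).length).drop (i - (A k).length) := by
        rw [List.drop_drop]
        congr 1
        omega
      rw [hw, h1]
      exact ((List.take_prefix _ _).isInfix).trans (List.drop_suffix _ _).isInfix
    have h2 := hseg.win w hinf (by
      intro h0
      rw [h0] at hwl
      simp at hwl
      omega) hwl.le
    have h3 : w.toFinset = (Finset.range k).image fun j => x (i + j) := by
      ext z
      rw [List.mem_toFinset, Finset.mem_image]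
      constructor
      · intro hz
        obtain ⟨j, hj, hj'⟩ := List.getElem_of_mem hz
        rw [hwl] at hj
        refine ⟨j, Finset.mem_range.2 hj, ?_⟩
        rw [hxget J (i + j) (by omega), ← hj']
        simp [hw]
      · rintro ⟨j, hj, rfl⟩
        rw [Finset.mem_range] at hj
        rw [hxget J (i + j) (by omega)]
        have hj' : j < w.length := by rw [hwl]; exact hj
        have : w[j] = (A J)[i + j]'(by omega) := by simp [hw]
        rw [← this]
        exact List.getElem_mem _
    rwa [← h3]

end Pool.Agent.Run7.h783.OneSeq
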