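import Mathlib
import Pool.Agent.Run7.h783.OneSeq.Four
import Pool.Agent.Run7.h783.OneSeq.Seqn

set_option autoImplicit false

/-!
All multiples of `N`, of `2 N` or of `3 N` in one sequence.
-/

namespace Pool.Agent.Run7.h783.OneSeq

open Finset

theorem conn_four (q : ℕ) (r : ℤ) (hq : 1 ≤ q) (hq2 : 2 ∣ q) (hqr : IsCoprime r (q : ℤ)) (b : ℕ → ℕ)
    (hb : StrictMono b) (z : Fin 4 → ℤ) (c : ℤ) (hc : ∀ g, ¬ (3 : ℤ) ∣ z g - c) :
    ∃ i j : Fin 4, i < j ∧ Conn (PW q r) {x | ∃ g, i ≤ g ∧ g ≤ j ∧ x ∈ tr (BB b) (z g)}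
      (tr (BB b) (z i)) (tr (BB b) (z j)) := by
  classical
  by_contra hcon
  push Not at hcon
  have h1 : ∀ i j : Fin 4, ∃ (k : ℕ) (F : Finset ℤ), i < j → ∀ l,
      ¬ Seg (PW q r) k {x | ∃ g, i ≤ g ∧ g ≤ j ∧ x ∈ tr (BB b) (z g)}
        (tr (BB b) (z i)) (tr (BB b) (z j)) F l := by
    intro i j
    by_cases h : i < j
    · have h2 := hcon i j h
      unfold Conn at h2
      push Not at h2
      obtain ⟨k, F, h3⟩ := h2
      exact ⟨k, F, fun _ => h3⟩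
    · exact ⟨0, ∅, fun h' => absurd h' h⟩
  choose k F hkF using h1
  obtain ⟨i, j, hij, l, hl⟩ := four q r hq hq2 hqr b hb z c hc
    (univ.sup fun p : Fin 4 × Fin 4 => k p.1 p.2) (univ.biUnion fun p : Fin 4 × Fin 4 => F p.1 p.2)
  refine hkF i j hij l (hl.mono ?_ subset_rfl ?_)
  · exact le_sup (f := fun p : Fin 4 × Fin 4 => k p.1 p.2) (mem_univ (i, j))
  · exact subset_biUnion_of_mem (fun p : Fin 4 × Fin 4 => F p.1 p.2) (mem_univ (i, j))

/-- the multiples of `d` -/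
def SS (d : ℤ) : AddSubgroup ℤ := AddSubgroup.zmultiples d

theorem mem_SS {d y : ℤ} : y ∈ SS d ↔ d ∣ y := by
  rw [SS, Int.mem_zmultiples_iff]

theorem BB_sub (b : ℕ → ℕ) (d : ℤ) (hd : d ∣ 6) : BB b ⊆ (SS d : Set ℤ) := by
  rintro x ⟨i, rfl⟩
  rw [SetLike.mem_coe, mem_SS]
  refine hd.trans ?_
  have h1 : (3 : ℕ).factorial ∣ (b i + 3).factorial := Nat.factorial_dvd_factorial (by omega)
  have h2 : (3 : ℕ).factorial = 6 := rfl
  rw [h2] at h1
  exact_mod_cast h1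

/-- a connection in a class modulo `d` -/
theorem conn_class {P : Finset ℤ → Prop} (hP : TrInv P) (b : ℕ → ℕ) (z : Fin 4 → ℤ) {i j : Fin 4}
    (d : ℤ) (hd : d ∣ 6) (h : Conn P {x | ∃ g, i ≤ g ∧ g ≤ j ∧ x ∈ tr (BB b) (z g)}
      (tr (BB b) (z i)) (tr (BB b) (z j))) (hg : ∀ g, i ≤ g → g ≤ j → d ∣ z g - z i) :
    Conn P (SS d) (BB b) (tr (BB b) (z j - z i)) := by
  have h1 := h.translate hP (-z i)
  rw [tr_tr, tr_tr, add_neg_cancel, tr_zero, ← sub_eq_add_neg] at h1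
  refine h1.mono ?_
  intro x hx
  obtain ⟨g, hg1, hg2, hg3⟩ := hx
  have h2 := mem_SS.1 (BB_sub b d hd hg3)
  have h3 := dvd_add h2 (hg g hg1 hg2)
  rw [SetLike.mem_coe, mem_SS]
  have h4 : x - -z i - z g + (z g - z i) = x := by ring
  rwa [h4] at h3

theorem final_of (q : ℕ) (r : ℤ) (b : ℕ → ℕ) (hB : Clique (PW q r) (BB b)) (d : ℤ) (hd0 : d ≠ 0)
    (hd : d ∣ 6) (h : Conn (PW q r) (SS d) (BB b) (tr (BB b) d)) :
    ∃ x : ℕ → ℤ, Function.Injective x ∧ Set.range x = {y | d ∣ y} ∧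
      ∀ k, 1 ≤ k → ∃ i₀, ∀ i ≥ i₀, PW q r ((Finset.range k).image fun j => x (i + j)) := by
  have hBS := BB_sub b d hd
  have hSS : ((SS d : AddSubgroup ℤ) : Set ℤ) = {y | d ∣ y} := by
    ext y; exact mem_SS
  have hT : ∀ z ∈ SS d, Conn (PW q r) (SS d) (BB b) (tr (BB b) z) := by
    intro z hz
    have h1 : d ∈ TT (trInv q r) (SS d) (BB b) hB hBS := mem_TT.2 ⟨mem_SS.2 dvd_rfl, h⟩
    obtain ⟨m, rfl⟩ := mem_SS.1 hz
    have h2 := (TT (trInv q r) (SS d) (BB b) hB hBS).zsmul_mem h1 m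
    rw [smul_eq_mul, mul_comm] at h2
    exact (mem_TT.1 h2).2
  have hinf : ((SS d : AddSubgroup ℤ) : Set ℤ).Infinite := by
    apply Set.infinite_of_injective_forall_mem (f := fun n : ℤ => d * n)
    · exact mul_right_injective₀ hd0
    · intro n
      exact mem_SS.2 (dvd_mul_right d n)
  obtain ⟨e, he⟩ := (Set.to_countable ((SS d : AddSubgroup ℤ) : Set ℤ)).exists_eq_range hinf.nonempty
  obtain ⟨x, hx1, hx2, hx3⟩ := exists_sequence (P := PW q r) (SS d : Set ℤ) hinf (BB b) hB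
    (fun k F y hy hyF => loop (trInv q r) (SS d) (BB b) hB hBS hT k F y hy hyF) e he.symm
  exact ⟨x, hx1, by rw [hx2, hSS], hx3⟩

theorem main_seq (q : ℕ) (r : ℤ) (hq : 1 ≤ q) (hq2 : 2 ∣ q) (hqr : IsCoprime r (q : ℤ)) :
    ∃ d : ℕ, 1 ≤ d ∧ d ≤ 3 ∧ ∃ x : ℕ → ℤ, Function.Injective x ∧ Set.range x = {y | (d : ℤ) ∣ y} ∧
      ∀ k, 1 ≤ k → ∃ i₀, ∀ i ≥ i₀, PW q r ((Finset.range k).image fun j => x (i + j)) := by
  obtain ⟨b, hb, hB⟩ := exists_clique q hq r hqr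
  have hP := trInv q r
  have h1 : (1 : ℤ) ∣ 6 := one_dvd _
  have h2 : (2 : ℤ) ∣ 6 := ⟨3, by norm_num⟩
  have h3 : (3 : ℤ) ∣ 6 := ⟨2, by norm_num⟩
  set T := TT hP (SS 1) (BB b) hB (BB_sub b 1 h1) with hT
  have key : ∀ (z : Fin 4 → ℤ) (i j : Fin 4), Conn (PW q r) {x | ∃ g, i ≤ g ∧ g ≤ j ∧
      x ∈ tr (BB b) (z g)} (tr (BB b) (z i)) (tr (BB b) (z j)) → z j - z i ∈ T := fun z i j h =>
    mem_TT.2 ⟨mem_SS.2 (one_dvd _), conn_class hP b z 1 h1 h (fun _ _ _ => one_dvd _)⟩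
  by_cases hT1 : (1 : ℤ) ∈ T
  · exact ⟨1, le_rfl, by norm_num, by
      simpa using final_of q r b hB 1 one_ne_zero h1 (mem_TT.1 hT1).2⟩
  by_cases hT2 : (2 : ℤ) ∈ T
  · refine ⟨2, by norm_num, by norm_num, ?_⟩
    obtain ⟨i, j, hij, hc⟩ := conn_four q r hq hq2 hqr b hb ![0, 2, 3, 5] 1 (by decide)
    have hk := key _ i j hc
    have hodd : ∀ m : ℤ, 2 * m + 1 ∉ T := by
      intro m hm
      apply hT1
      have h4 := T.sub_mem hm (T.zsmul_mem hT2 m)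
      have h5 : 2 * m + 1 - m • (2 : ℤ) = 1 := by rw [smul_eq_mul]; ring
      rwa [h5] at h4
    have hgood : Conn (PW q r) (SS 2) (BB b) (tr (BB b) 2) := by
      fin_cases i <;> fin_cases j <;> first
        | exact absurd hij (by decide)
        | exact absurd hk (hodd 0)
        | exact absurd hk (hodd 1)
        | exact absurd hk (hodd 2)
        | exact conn_class hP b ![0, 2, 3, 5] 2 h2 hc (by decide)
    exact_mod_cast final_of q r b hB 2 two_ne_zero h2 hgood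
  by_cases hT3 : (3 : ℤ) ∈ T
  · refine ⟨3, by norm_num, by norm_num, ?_⟩
    obtain ⟨i, j, hij, hc⟩ := conn_four q r hq hq2 hqr b hb ![0, 3, 1, 4] 2 (by decide)
    have hk := key _ i j hc
    have hodd : ∀ m : ℤ, 3 * m + 1 ∉ T := by
      intro m hm
      apply hT1
      have h4 := T.sub_mem hm (T.zsmul_mem hT3 m)
      have h5 : 3 * m + 1 - m • (3 : ℤ) = 1 := by rw [smul_eq_mul]; ring
      rwa [h5] at h4
    have hgood : Conn (PW q r) (SS 3) (BB b) (tr (BB b) 3) := by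
      fin_cases i <;> fin_cases j <;> first
        | exact absurd hij (by decide)
        | exact absurd hk (hodd 0)
        | exact absurd hk (hodd 1)
        | exact absurd (show (-2 : ℤ) ∈ T by simpa using hk) (by simpa using hodd (-1))
        | exact conn_class hP b ![0, 3, 1, 4] 3 h3 hc (by decide)
    exact_mod_cast final_of q r b hB 3 three_ne_zero h3 hgood
  · exfalso
    obtain ⟨i, j, hij, hc⟩ := conn_four q r hq hq2 hqr b hb ![0, 1, 3, 4] 2 (by decide)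
    have hk := key _ i j hc
    obtain ⟨i', j', hij', hc'⟩ := conn_four q r hq hq2 hqr b hb ![0, 3, 6, 9] 1 (by decide)
    have hk' := key _ i' j' hc'
    have h4 : (4 : ℤ) ∈ T := by
      fin_cases i <;> fin_cases j <;> first
        | exact absurd hij (by decide)
        | exact absurd hk hT1
        | exact absurd hk hT2
        | exact absurd hk hT3
        | exact hk
    have h69 : (6 : ℤ) ∈ T ∨ (9 : ℤ) ∈ T := by
      fin_cases i' <;> fin_cases j' <;> first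
        | exact absurd hij' (by decide)
        | exact absurd hk' hT3
        | exact Or.inl hk'
        | exact Or.inr hk'
    rcases h69 with h | h
    · have h5 := T.sub_mem h h4
      norm_num at h5
      exact hT2 h5
    · have h5 := T.sub_mem (T.sub_mem h h4) h4
      norm_num at h5
      exact hT1 h5

/-- the final form -/
theorem final (N : ℕ) (hN : 0 < N) (hN2 : Even N) (r : ℤ) (hr : IsCoprime r (N : ℤ)) :
    ∃ d : ℕ, 1 ≤ d ∧ d ≤ 3 ∧ ∃ x : ℕ → ℤ, Function.Injective x ∧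
      Set.range x = {y | ((d * N : ℕ) : ℤ) ∣ y} ∧
      ∀ k : ℕ, 1 ≤ k → ∃ i₀ : ℕ, ∀ i ≥ i₀,
        {n : ℕ | (n : ℤ) ≡ r [ZMOD N] ∧ (∀ j < k, ∃ p : ℕ, p.Prime ∧ (p : ℤ) = n + x (i + j)) ∧
          ∀ p : ℕ, p.Prime → (∃ j < k, (n : ℤ) + x (i + j) ≤ p) →
            (∃ j < k, (p : ℤ) ≤ n + x (i + j)) → ∃ j < k, (p : ℤ) = n + x (i + j)}.Infinite := by
  obtain ⟨d, hd1, hd3, x, hx1, hx2, hx3⟩ := main_seq N r hN hN2.two_dvd hr
  have hN0 : (N : ℤ) ≠ 0 := by exact_mod_cast hN.ne'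
  refine ⟨d, hd1, hd3, fun i => N * x i, fun i j h => hx1 (mul_left_cancel₀ hN0 h), ?_, ?_⟩
  · ext y
    constructor
    · rintro ⟨i, rfl⟩
      have h1 : x i ∈ Set.range x := ⟨i, rfl⟩
      rw [hx2] at h1
      obtain ⟨m, hm⟩ := h1
      refine ⟨m, ?_⟩
      simp only [hm]
      push_cast
      ring
    · rintro ⟨m, hm⟩
      have h1 : (d : ℤ) * m ∈ Set.range x := by
        rw [hx2]; exact dvd_mul_right _ _
      obtain ⟨i, hi⟩ := h1
      refine ⟨i, ?_⟩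
      simp only [hi, hm]
      push_cast
      ring
  · intro k hk
    obtain ⟨i₀, hi₀⟩ := hx3 k hk
    refine ⟨i₀, fun i hi => (hi₀ i hi).mono ?_⟩
    rintro n ⟨h1, h2⟩
    have hW : ∀ j < k, x (i + j) ∈ (Finset.range k).image fun j => x (i + j) := fun j hj =>
      mem_image_of_mem _ (mem_range.2 hj)
    refine ⟨h1, fun j hj => ?_, ?_⟩
    · have h3 := (h2 (N * x (i + j)) ⟨_, hW j hj, le_rfl⟩ ⟨_, hW j hj, le_rfl⟩).2 ⟨_, hW j hj, rfl⟩
      refine ⟨_, h3, Int.toNat_of_nonneg ?_⟩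
      by_contra hcon
      rw [Int.toNat_of_nonpos (not_le.1 hcon).le] at h3
      exact Nat.not_prime_zero h3
    · rintro p hp ⟨j, hj, hj'⟩ ⟨j', hj2, hj2'⟩
      obtain ⟨y, hy⟩ : ∃ y : ℤ, y = p - n := ⟨_, rfl⟩
      have h3 := (h2 y ⟨_, hW j hj, by linarith⟩ ⟨_, hW j' hj2, by linarith⟩).1 (by
        have h4 : (n : ℤ) + y = p := by linarith
        rw [h4, Int.toNat_natCast]
        exact hp)
      obtain ⟨w, hw, hyw⟩ := h3
      obtain ⟨j'', hj'', rfl⟩ := mem_image.1 hw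
      exact ⟨j'', mem_range.1 hj'', by linarith⟩

end Pool.Agent.Run7.h783.OneSeq
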